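import Mathlib

/-!
# MP_ae912c : the finite 2-sunflower property and the finite sunflower property agree for
relational Fraisse classes with strong amalgamation

* the finite 2-sunflower property gives: every large structure coloured with arbitrarily many
  colours has a copy of a given structure on which the colouring is constant or injective;
* strong amalgamation gives larger structures of the class, hence indivisibility;
* coordinates are made constant or injective one after the other, and the remaining conflicts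
  form a graph of bounded degree.
-/

namespace Pool.Agent.Results.MP_ae912c_co.SunflowerEquiv

open FirstOrder FirstOrder.Language CategoryTheory

universe u v w

variable {L : FirstOrder.Language.{u, v}}

/-- A Fraisse class of finite `L`-structures: closed under isomorphism and under (nonempty)
substructures, countably many isomorphism types, joint embedding and amalgamation. -/
structure FraisseClass (K : Set (Bundled.{w} L.Structure)) : Prop where
  finite : ∀ M ∈ K, Finite M
  iso : ∀ M N : Bundled.{w} L.Structure, Nonempty (M ≃[L] N) → M ∈ K → N ∈ K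
  sub : ∀ M ∈ K, ∀ S : L.Substructure M, Nonempty S →
    (⟨S, inferInstance⟩ : Bundled.{w} L.Structure) ∈ K
  countable : (Quotient.mk' '' K).Countable
  joint : JointEmbedding K
  amalg : Amalgamation K

/-- Strong amalgamation. -/
def StrongAmalgamation (K : Set (Bundled.{w} L.Structure)) : Prop :=
  ∀ (A B₀ B₁ : Bundled.{w} L.Structure) (f₀ : A ↪[L] B₀) (f₁ : A ↪[L] B₁),
    A ∈ K → B₀ ∈ K → B₁ ∈ K →
    ∃ (C : Bundled.{w} L.Structure) (g₀ : B₀ ↪[L] C) (g₁ : B₁ ↪[L] C),
      C ∈ K ∧ g₀.comp f₀ = g₁.comp f₁ ∧
        Set.range g₀ ∩ Set.range g₁ = Set.range (g₀.comp f₀)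

/-- A set `S` of sets is a sunflower: all its distinct elements meet in one common set. -/
def IsSunflower {X : Type w} (S : Set (Set X)) : Prop :=
  ∃ c : Set X, ∀ v ∈ S, ∀ v' ∈ S, v ≠ v' → v ∩ v' = c

/-- The finite `k`-sunflower property of a class `K`: for every `B ∈ K` there is `C ∈ K` such
that whenever a structure `D` whose domain consists of `k`-sets is isomorphic to `C`, some
substructure of `D` is isomorphic to `B` and is a sunflower. -/
def FiniteSunflower (k : ℕ) (K : Set (Bundled.{w} L.Structure)) : Prop :=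
  ∀ B ∈ K, ∃ C ∈ K, ∀ (X : Type w) (D : Set (Set X)) (_ : L.Structure D),
    (∀ s ∈ D, s.encard = k) → Nonempty (C ≃[L] D) →
    ∃ S : L.Substructure D, Nonempty (S ≃[L] B) ∧
      IsSunflower ((fun s : D => (s : Set X)) '' (S : Set D))

/-! ### The canonical partition property -/

/-- Every colouring with arbitrarily many colours is constant or injective on a copy. -/
def Canonical (K : Set (Bundled.{w} L.Structure)) : Prop :=
  ∀ B ∈ K, ∃ C ∈ K, ∀ (Y : Type w) (f : C → Y), ∃ g : B ↪[L] C,
    (∀ x y, f (g x) = f (g y)) ∨ (∀ x y, f (g x) = f (g y) → x = y)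

/-- An embedding from the structure `B` isomorphic to a substructure `S` of a structure
isomorphic to `C`. -/
noncomputable def embOf {B C : Type w} [L.Structure B] [L.Structure C] {D : Type w} [L.Structure D]
    (φ : C ≃[L] D) (S : L.Substructure D) (e : S ≃[L] B) : B ↪[L] C :=
  φ.symm.toEmbedding.comp (S.subtype.comp e.symm.toEmbedding)

lemma embOf_apply {B C : Type w} [L.Structure B] [L.Structure C] {D : Type w} [L.Structure D]
    (φ : C ≃[L] D) (S : L.Substructure D) (e : S ≃[L] B) (x : B) :
    φ (embOf φ S e x) = (e.symm x : D) := by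
  simp [embOf]

lemma canonical_of_two {K : Set (Bundled.{w} L.Structure)} (h : FiniteSunflower 2 K) :
    Canonical K := by
  classical
  intro B hB
  obtain ⟨C, hC, hCB⟩ := h B hB
  refine ⟨C, hC, ?_⟩
  intro Y f
  let lab : C → Set (Y ⊕ C) := fun c => {Sum.inl (f c), Sum.inr c}
  have hlab : Function.Injective lab := by
    intro c c' hcc
    have : (Sum.inr c : Y ⊕ C) ∈ lab c' := by
      rw [← hcc]; simp [lab]
    simpa [lab] using this
  let D : Set (Set (Y ⊕ C)) := Set.range lab
  let eq : C ≃ D := Equiv.ofInjective lab hlab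
  let _i : L.Structure D := eq.inducedStructure
  let φ : C ≃[L] D := eq.inducedStructureEquiv
  have hφ : ∀ c, ((φ c : D) : Set (Y ⊕ C)) = lab c := fun c => rfl
  obtain ⟨S, ⟨e⟩, ker, hker⟩ := hCB (Y ⊕ C) D inferInstance (by
    rintro s ⟨c, rfl⟩
    have : (Sum.inl (f c) : Y ⊕ C) ≠ Sum.inr c := by simp
    simpa [lab] using Set.encard_pair this) ⟨φ⟩
  refine ⟨embOf φ S e, ?_⟩
  have key : ∀ x y : B, x ≠ y → lab (embOf φ S e x) ∩ lab (embOf φ S e y) = ker := by
    intro x y hxy
    apply hker
    · refine ⟨φ (embOf φ S e x), ?_, rfl⟩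
      rw [embOf_apply]
      exact (e.symm x).2
    · refine ⟨φ (embOf φ S e y), ?_, rfl⟩
      rw [embOf_apply]
      exact (e.symm y).2
    · intro h'
      exact hxy ((embOf φ S e).injective (hlab h'))
  by_cases hconst : ∀ x y, f (embOf φ S e x) = f (embOf φ S e y)
  · exact Or.inl hconst
  · right
    push Not at hconst
    obtain ⟨a, b, hab⟩ := hconst
    have hab' : a ≠ b := fun h' => hab (by rw [h'])
    have hker0 : ker = ∅ := by
      rw [← key a b hab']
      ext p
      simp only [lab, Set.mem_inter_iff, Set.mem_insert_iff, Set.mem_singleton_iff,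
        Set.mem_empty_iff_false, iff_false]
      rintro ⟨h1 | h1, h2 | h2⟩
      · rw [h1] at h2
        exact hab (Sum.inl_injective h2)
      · rw [h1] at h2; simp at h2
      · rw [h1] at h2; simp at h2
      · rw [h1] at h2
        exact hab' ((embOf φ S e).injective (Sum.inr_injective h2))
    intro x y hxy
    by_contra hne
    have h1 := key x y hne
    rw [hker0] at h1
    have : (Sum.inl (f (embOf φ S e x)) : Y ⊕ C) ∈
        lab (embOf φ S e x) ∩ lab (embOf φ S e y) := by
      simp [lab, hxy]
    rw [h1] at this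
    exact this

/-- Several colourings at once. -/
lemma canonical_many {K : Set (Bundled.{w} L.Structure)} (h : Canonical K) (n : ℕ) :
    ∀ B ∈ K, ∃ C ∈ K, ∀ (Y : Type w) (f : Fin n → C → Y), ∃ g : B ↪[L] C,
      ∀ i, (∀ x y, f i (g x) = f i (g y)) ∨ (∀ x y, f i (g x) = f i (g y) → x = y) := by
  induction n with
  | zero =>
    intro B hB
    exact ⟨B, hB, fun Y f => ⟨Embedding.refl L B, fun i => i.elim0⟩⟩
  | succ n ih =>
    intro B hB
    obtain ⟨C, hC, hCB⟩ := ih B hB
    obtain ⟨E, hE, hEC⟩ := h C hC
    refine ⟨E, hE, ?_⟩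
    intro Y f
    obtain ⟨g, hg⟩ := hEC Y (f (Fin.last n))
    obtain ⟨g', hg'⟩ := hCB Y (fun i c => f i.castSucc (g c))
    refine ⟨g.comp g', ?_⟩
    intro i
    refine Fin.lastCases ?_ (fun j => ?_) i
    · rcases hg with hg | hg
      · left; intro x y; exact hg _ _
      · right; intro x y hxy
        exact g'.injective (hg _ _ hxy)
    · exact hg' j

/-- Larger structures of the class. -/
lemma exists_larger [L.IsRelational] {K : Set (Bundled.{w} L.Structure)} (hK : FraisseClass K)
    (hS : StrongAmalgamation K) (n : ℕ) :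
    ∀ B ∈ K, 2 ≤ Nat.card B → ∃ C ∈ K, Nonempty (B ↪[L] C) ∧ n ≤ Nat.card C := by
  classical
  intro B hB h2
  induction n with
  | zero => exact ⟨B, hB, ⟨Embedding.refl L B⟩, Nat.zero_le _⟩
  | succ n ih =>
    obtain ⟨C, hC, ⟨ι⟩, hn⟩ := ih
    have hfin : Finite C := hK.finite C hC
    have hcard : 2 ≤ Nat.card C := le_trans h2 (Nat.card_le_card_of_injective ι ι.injective)
    have hnt : Nontrivial C := by
      rw [← Finite.one_lt_card_iff_nontrivial]; omega
    obtain ⟨a, b, hab⟩ := hnt
    let A : L.Substructure C := Substructure.closure L {x | x ≠ b}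
    have hA : ∀ x, x ∈ A ↔ x ≠ b := by
      intro x
      rw [Substructure.mem_closure_iff_of_isRelational]
      rfl
    have hAne : Nonempty A := ⟨⟨a, (hA a).mpr hab⟩⟩
    have hAK : (⟨A, inferInstance⟩ : Bundled.{w} L.Structure) ∈ K := hK.sub C hC A hAne
    obtain ⟨E, g₀, g₁, hE, hcomm, hint⟩ := hS ⟨A, inferInstance⟩ C C A.subtype A.subtype hAK hC hC
    refine ⟨E, hE, ⟨g₀.comp ι⟩, ?_⟩
    have hfinE : Finite E := hK.finite E hE
    have hnot : g₁ b ∉ Set.range g₀ := by
      intro hmem
      have : g₁ b ∈ Set.range g₀ ∩ Set.range g₁ := ⟨hmem, b, rfl⟩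
      rw [hint, hcomm] at this
      obtain ⟨x, hx⟩ := this
      have hx' : g₁ (A.subtype x) = g₁ b := hx
      exact (hA _).mp x.2 (g₁.injective hx')
    have : Nat.card (Option C) ≤ Nat.card E := by
      let F : Option C → E := fun o => o.elim (g₁ b) g₀
      apply Nat.card_le_card_of_injective F
      intro o o' hoo
      rcases o with _ | x <;> rcases o' with _ | y
      · rfl
      · exact absurd ⟨y, hoo.symm⟩ hnot
      · exact absurd ⟨x, hoo⟩ hnot
      · exact congrArg some (g₀.injective hoo)
    have h3 : Nat.card (Option C) = Nat.card C + 1 := Finite.card_option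
    omega

/-- Indivisibility. -/
lemma indivisible [L.IsRelational] {K : Set (Bundled.{w} L.Structure)} (hK : FraisseClass K)
    (hS : StrongAmalgamation K) (h : Canonical K) (r : ℕ) :
    ∀ B ∈ K, 2 ≤ Nat.card B → ∃ C ∈ K, ∀ f : C → Fin r, ∃ g : B ↪[L] C,
      ∀ x y, f (g x) = f (g y) := by
  classical
  intro B hB h2
  obtain ⟨B', hB', ⟨ι⟩, hcard⟩ := exists_larger hK hS (r + 1) B hB h2
  obtain ⟨C, hC, hCB⟩ := h B' hB'
  refine ⟨C, hC, ?_⟩
  intro f
  obtain ⟨g, hg⟩ := hCB (ULift (Fin r)) (fun c => ULift.up (f c))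
  refine ⟨g.comp ι, ?_⟩
  rcases hg with hg | hg
  · intro x y
    exact congrArg ULift.down (hg (ι x) (ι y))
  · exfalso
    have hfin : Finite B' := hK.finite B' hB'
    have : Nat.card B' ≤ Nat.card (Fin r) := by
      apply Nat.card_le_card_of_injective (fun x => f (g x))
      intro x y hxy
      exact hg x y (congrArg ULift.up hxy)
    rw [Nat.card_fin] at this
    omega

/-- Greedy colouring. -/
lemma greedy {V : Type*} [Finite V] (R : V → V → Prop) (hsymm : ∀ x y, R x y → R y x) (d : ℕ)
    (hd : ∀ x, Nat.card {y // R x y} ≤ d) :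
    ∃ c : V → Fin (d + 1), ∀ x y, R x y → x ≠ y → c x ≠ c y := by
  classical
  have _i : Fintype V := Fintype.ofFinite V
  suffices h : ∀ s : Finset V, ∃ c : V → Fin (d + 1), ∀ x ∈ s, ∀ y ∈ s, R x y → x ≠ y → c x ≠ c y by
    obtain ⟨c, hc⟩ := h Finset.univ
    exact ⟨c, fun x y => hc x (Finset.mem_univ _) y (Finset.mem_univ _)⟩
  intro s
  induction s using Finset.induction_on with
  | empty => exact ⟨fun _ => 0, by simp⟩
  | insert a s ha ih =>
    obtain ⟨c, hc⟩ := ih
    have hex : ∃ i : Fin (d + 1), ∀ y ∈ s, R a y → c y ≠ i := by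
      by_contra hcon
      push Not at hcon
      choose y hys hRy hcy using hcon
      have : Nat.card (Fin (d + 1)) ≤ Nat.card {y // R a y} := by
        apply Nat.card_le_card_of_injective (fun i => (⟨y i, hRy i⟩ : {y // R a y}))
        intro i j hij
        have : y i = y j := congrArg Subtype.val hij
        rw [← hcy i, ← hcy j, this]
      rw [Nat.card_fin] at this
      have := hd a
      omega
    obtain ⟨i, hi⟩ := hex
    refine ⟨Function.update c a i, ?_⟩
    intro x hx y hy hR hne
    rcases Finset.mem_insert.mp hx with hxa | hx <;> rcases Finset.mem_insert.mp hy with hya | hy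
    · exact absurd (hxa.trans hya.symm) hne
    · rw [hxa] at hR hne ⊢
      rw [Function.update_self, Function.update_of_ne (Ne.symm hne)]
      exact (hi y hy hR).symm
    · rw [hya] at hR hne ⊢
      rw [Function.update_self, Function.update_of_ne hne]
      exact hi x hx (hsymm _ _ hR)
    · have hxa : x ≠ a := fun h => ha (h ▸ hx)
      have hya : y ≠ a := fun h => ha (h ▸ hy)
      rw [Function.update_of_ne hxa, Function.update_of_ne hya]
      exact hc x hx y hy hR hne

/-- A `k`-set can be enumerated. -/
lemma exists_enum {X : Type w} (k : ℕ) (s : Set X) (hs : s.encard = k) :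
    ∃ e : Fin k → X, Function.Injective e ∧ Set.range e = s := by
  have hfin : s.Finite := Set.finite_of_encard_eq_coe hs
  have hcard : Nat.card s = k := by
    have := Set.Finite.cast_ncard_eq hfin
    rw [hs] at this
    have h2 : s.ncard = k := by exact_mod_cast this
    rw [← h2]; rfl
  have _i : Finite s := hfin
  let e := (Finite.equivFinOfCardEq hcard).symm
  refine ⟨fun i => (e i : X), ?_, ?_⟩
  · intro i j hij
    exact e.injective (Subtype.ext hij)
  · ext x
    constructor
    · rintro ⟨i, rfl⟩; exact (e i).2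
    · intro hx
      exact ⟨e.symm ⟨x, hx⟩, by simp⟩

theorem sunflower_of_two [L.IsRelational] {K : Set (Bundled.{w} L.Structure)}
    (hK : FraisseClass K) (hS : StrongAmalgamation K) (h : FiniteSunflower 2 K) (k : ℕ) :
    FiniteSunflower k K := by
  classical
  have hcan := canonical_of_two h
  intro B hB
  by_cases h2 : 2 ≤ Nat.card B
  swap
  · -- at most one point
    refine ⟨B, hB, ?_⟩
    intro X D _ _ hφ
    obtain ⟨φ⟩ := hφ
    have hfinB : Finite B := hK.finite B hB
    have hsub : Subsingleton B := by
      rw [← Finite.card_le_one_iff_subsingleton]; omega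
    refine ⟨⊤, ⟨φ.symm.comp (Substructure.topEquiv (L := L) (M := D))⟩, ∅, ?_⟩
    rintro v ⟨s, _, rfl⟩ v' ⟨s', _, rfl⟩ hne
    exact absurd (by
      have : s = s' := φ.symm.injective (Subsingleton.elim _ _)
      rw [this]) hne
  · obtain ⟨B₁, hB₁, hind⟩ := indivisible hK hS hcan (k * k + 1) B hB h2
    obtain ⟨C, hC, hCB⟩ := canonical_many hcan k B₁ hB₁
    refine ⟨C, hC, ?_⟩
    intro X D _ hk hφ
    obtain ⟨φ⟩ := hφ
    choose en hen1 hen2 using fun d : D => exists_enum k (d : Set X) (hk d d.2)
    obtain ⟨g, hg⟩ := hCB X (fun i c => en (φ c) i)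
    have hfin₁ : Finite B₁ := hK.finite B₁ hB₁
    -- the labels
    let q : B₁ → Fin k → X := fun x i => en (φ (g x)) i
    have hq : ∀ i, (∀ x y, q x i = q y i) ∨ (∀ x y, q x i = q y i → x = y) := hg
    have hqinj : ∀ x, Function.Injective (q x) := fun x => hen1 _
    let inj : Fin k → Prop := fun i => ∀ x y, q x i = q y i → x = y
    let R : B₁ → B₁ → Prop := fun x y => ∃ i j, inj i ∧ inj j ∧ q x i = q y j
    have hR : ∀ x, Nat.card {y // R x y} ≤ k * k := by
      intro x
      choose i j h1 h2 h3 using fun y : {y // R x y} => y.2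
      have : Nat.card {y // R x y} ≤ Nat.card (Fin k × Fin k) := by
        apply Nat.card_le_card_of_injective (fun y => (i y, j y))
        intro y y' hyy
        simp only [Prod.mk.injEq] at hyy
        apply Subtype.ext
        apply h2 y
        rw [← h3 y, hyy.1, h3 y', hyy.2]
      simpa using this
    obtain ⟨col, hcol⟩ := greedy R (by
      rintro x y ⟨i, j, h1, h2, h3⟩
      exact ⟨j, i, h2, h1, h3.symm⟩) (k * k) hR
    obtain ⟨h', hh'⟩ := hind col
    let emb : B ↪[L] D := φ.toEmbedding.comp (g.comp h')
    have hemb : ∀ x, ((emb x : D) : Set X) = Set.range (q (h' x)) := by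
      intro x
      exact (hen2 _).symm
    refine ⟨emb.toHom.range, ⟨emb.equivRange.symm⟩,
      {p | ∃ i, (∀ x y, q x i = q y i) ∧ ∃ x, q x i = p}, ?_⟩
    rintro v ⟨s, ⟨x, rfl⟩, rfl⟩ v' ⟨s', ⟨y, rfl⟩, rfl⟩ hne
    have hxy : x ≠ y := fun hc => hne (by rw [hc])
    have hxy' : h' x ≠ h' y := fun hc => hxy (h'.injective hc)
    show ((emb x : D) : Set X) ∩ ((emb y : D) : Set X) = _
    rw [hemb, hemb]
    ext p
    constructor
    · rintro ⟨⟨i, hi⟩, ⟨j, hj⟩⟩
      by_cases hij : i = j
      · subst hij
        rcases hq i with hc | hc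
        · exact ⟨i, hc, _, hi⟩
        · exact absurd (hc _ _ (hi.trans hj.symm)) hxy'
      · rcases hq i with hci | hci
        · exfalso
          apply hij
          apply hqinj (h' y)
          rw [hj, ← hi]
          exact hci _ _
        · rcases hq j with hcj | hcj
          · exfalso
            apply hij
            apply hqinj (h' x)
            rw [hi, ← hj]
            exact hcj _ _
          · exfalso
            apply hcol (h' x) (h' y) ⟨i, j, hci, hcj, hi.trans hj.symm⟩ hxy'
            exact hh' x y
    · rintro ⟨i, hc, z, hz⟩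
      exact ⟨⟨i, by rw [← hz]; exact hc _ _⟩, ⟨i, by rw [← hz]; exact hc _ _⟩⟩

/-- **MP_ae912c.** For a Fraisse class in a relational language with strong amalgamation the
finite 2-sunflower property and the finite sunflower property are equivalent. -/
theorem result (L : FirstOrder.Language.{u, v}) [L.IsRelational] (K : Set (Bundled.{w} L.Structure))
    (hK : FraisseClass K) (hS : StrongAmalgamation K) :
    FiniteSunflower 2 K ↔ ∀ k : ℕ, 0 < k → FiniteSunflower k K :=
  ⟨fun h k _ => sunflower_of_two hK hS h k, fun h => h 2 (by norm_num)⟩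

end Pool.Agent.Results.MP_ae912c_co.SunflowerEquiv
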